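import Pool.Agent.TH957.ZM.Fin

/-!
# A simultaneous measure of irrationality for `ζ(7), ζ(9), ζ(11), ζ(13)`

The proof evaluates the Hankel determinants of `Pool/Agent/H343Z/` (linear forms in
`1, ζ(7), ζ(9), ζ(11), ζ(13)`) at arbitrary rational points `p_j / q` in place of the zeta values: the
`p`-adic bounds hold uniformly, the non-vanishing holds at all large prime parameters `n` which do not
divide `q`, and the archimedean bound persists if `|ζ(j) - p_j / q| ≤ exp (-825 n)` for the four `j`.
A prime `n = 1 mod 24` with `27.5 log q < n < 35.6 log q` not dividing `q` exists by the prime number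
theorem in arithmetic progressions.

Credits: this extension helper957; for the determinants see
`Pool/Agent/Results/MP_c2395a_nt/OddZeta7To13.lean`.
-/

set_option autoImplicit false

namespace Pool.Agent.Results.MP_c2395a_nt.MeasureZeta7To13

/-- There is `c > 0` such that for all integers `p₇, p₉, p₁₁, p₁₃` and `q ≥ 1` one of the four numbers
`|ζ(j) - p_j / q|`, `j = 7, 9, 11, 13`, is at least `c / q ^ 29400`. -/
theorem result : ∃ c : ℝ, 0 < c ∧ ∀ (p : ℕ → ℤ) (q : ℕ), 0 < q →
    ∃ j : ℕ, (j = 7 ∨ j = 9 ∨ j = 11 ∨ j = 13) ∧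
      c / (q : ℝ) ^ 29400 ≤ |(∑' n : ℕ, 1 / ((n : ℝ) + 1) ^ j) - (p j : ℝ) / q| :=
  Pool.Agent.TH957.ZM.main

end Pool.Agent.Results.MP_c2395a_nt.MeasureZeta7To13
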