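import Pool.Agent.Dim7.PD.Fin
import Pool.Agent.Dim7.PD.PU
import Pool.Agent.Dim7.PD.AR
import Pool.Agent.Dim7.PD.NV
import Pool.Agent.Dim7.PD.SV
import Pool.Agent.Dim7.PD.RH
import Pool.Agent.Dim7.PD.FX

/-!
# The distance of `(1, ζ(3), ζ(5), ζ(7))` to rational planes

The three numbers `ζ(3), ζ(5), ζ(7)` are not simultaneously close to numbers `(a_i + b_i θ) / q` with integers
`q, a_i, b_i` and one real number `θ`: some of the three differences is at least `c / H ^ 1070`, where `H` bounds `q` and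
the `b_i`. In particular `1, ζ(3), ζ(5), ζ(7)` span a `ℚ`-vector space of dimension at least three
(`Pool.Agent.Dim7.Z_main` in `Pool/Agent/Dim7/Main.lean`; part (2) below): `ζ(5)` and `ζ(7)` are not both in `ℚ + ℚ ζ(3)`.
This improves `Pool/Agent/Results/MP_c2395a_nt/DimThreeZeta9.lean` of the starting files.

The proof evaluates mixed Hankel determinants of size `20 (n - 1)` of the linear forms `∑ R(t) x^34 Q(x)`
(`x = (t + 8n)²`, very well poised `R` with poles of order `8` and `6`, `Pool/Agent/Dim7/Defs.lean`) at an arbitrary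
rational plane. For the zeta values the archimedean part is `600 n² log n + 1013.8 n²` and the `p`-adic parts sum up to
`-600 n² log n - 1016.8 n²`. New is the treatment of the primes `10n/3 < p < 10n` (`Mix*.lean`, `Two*.lean`), where the
residue classes modulo `p` contain two or three poles: the columns of the small forms are multiplied by `p` and the
polynomials are adapted to the forms, not only to the poles. The determinants do not vanish at the primes `n` which
divide neither `q` nor `b_3`. If `b_3 = 0`, the bound follows from a measure of irrationality of `ζ(3)`.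
-/

namespace Pool.Agent.Results.MP_c2395a_nt.PlaneDistanceZeta7

/-- **The distance of `(1, ζ(3), ζ(5), ζ(7))` to rational planes.** (1) There is `c > 0` such that for all integers
`q ≥ 1`, `a_i`, `b_i` (`i = 3, 5, 7`), all real numbers `θ` and all `H` with `q ≤ H` and `|b_i| ≤ H`, one of the three
numbers `|ζ(i) - (a_i + θ b_i) / q|` is at least `c / H ^ 1070`. (2) Its qualitative form: `1, ζ(3), ζ(5), ζ(7)` span a
`ℚ`-vector space of dimension at least three. -/
theorem result : (∃ c : ℝ, 0 < c ∧ ∀ (q : ℕ) (a b : ℕ → ℤ) (θ H : ℝ), 0 < q → (q : ℝ) ≤ H →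
    |(b 3 : ℝ)| ≤ H → |(b 5 : ℝ)| ≤ H → |(b 7 : ℝ)| ≤ H →
    ∃ i : ℕ, (i = 3 ∨ i = 5 ∨ i = 7) ∧
      c / H ^ 1070 ≤ |(∑' n : ℕ, 1 / ((n : ℝ) + 1) ^ i) - ((a i : ℝ) + θ * (b i : ℝ)) / q|) ∧
    3 ≤ Module.finrank ℚ (Submodule.span ℚ
      (Set.range fun i : Fin 4 =>
        if i.1 = 0 then (1 : ℝ) else ∑' n : ℕ, 1 / ((n : ℝ) + 1) ^ (2 * i.1 + 1))) := by
  refine ⟨?_, Pool.Agent.Dim7.Z_main⟩
  obtain ⟨c, hc, h⟩ := Pool.Agent.Dim7.PD.main_of Pool.Agent.Dim7.PD.P_unif
    (Pool.Agent.Dim7.PD.AR_of Pool.Agent.Dim7.PD.FN_in Pool.Agent.Dim7.PD.rho_le' Pool.Agent.Dim7.PD.BL_le'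
      Pool.Agent.Dim7.PD.sv_add' Pool.Agent.Dim7.PD.sv_entry') Pool.Agent.Dim7.PD.nonv
  refine ⟨c, hc, fun q a b θ H hq hqH h3 h5 h7 => ?_⟩
  obtain ⟨i, hi, hle⟩ := h q a b θ H hq hqH (by
    intro i hi
    simp only [Finset.mem_insert, Finset.mem_singleton] at hi
    rcases hi with rfl | rfl | rfl
    · exact h3
    · exact h5
    · exact h7)
  refine ⟨i, ?_, hle⟩
  simpa only [Finset.mem_insert, Finset.mem_singleton] using hi

end Pool.Agent.Results.MP_c2395a_nt.PlaneDistanceZeta7
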