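import Pool.Agent.TH818.SA.MA2

/-!
# Simultaneous rational approximation of odd zeta values

Simultaneous rational approximations with a common denominator `q` cannot be good for all but a few odd zeta
values: for every large `q` at least `(c/D) √(s log log s / log s)` of the odd `i ≤ s` have
`‖q ζ(i)‖ ≥ q^(-1/D)`.

The proof evaluates the Hankel determinants of `Pool/Agent/W165/OZ/` at the rational points `p_i/q` in place of
`ζ(i)`, with the parameter `n` tied to `q`; the non-vanishing and the archimedean bound are proved for the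
perturbed determinants of size between `m/8` and `m`, `m = h n / (4 D)`.

Credits: this extension helper818; for the determinants see `Pool/Agent/Results/MP_c2395a_nt/SqrtLogLog.lean`.
-/

set_option autoImplicit false

namespace Pool.Agent.Results.MP_c2395a_nt.SimultaneousApproximation

/-- **Simultaneous approximation of odd zeta values.** For every large `s` and every `D` with
`1 ≤ D ≤ log log s / 1000` there is `q₀` such that for every `q ≥ q₀` at least
`(1 / (1000 D)) √(s log log s / log s)` of the odd `i`, `3 ≤ i ≤ s`, satisfy `|q ζ(i) - p| ≥ q ^ (-1/D)` for all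
integers `p`; here `ζ(i) = ∑ 1/(n+1)^i`. -/
theorem result : ∃ s0 : ℕ, ∀ s ≥ s0, ∀ D : ℕ, 1 ≤ D →
    (D : ℝ) ≤ (1 / 1000) * Real.log (Real.log s) → ∃ q0 : ℕ, ∀ q : ℕ, q0 ≤ q →
    (1 / 1000) / D * Real.sqrt (s * Real.log (Real.log s) / Real.log s) ≤
      (Set.ncard {i : ℕ | 3 ≤ i ∧ i ≤ s ∧ Odd i ∧ ∀ p : ℤ,
        (q : ℝ) ^ (-(1 / (D : ℝ))) ≤ |(q : ℝ) * (∑' n : ℕ, 1 / ((n : ℝ) + 1) ^ i) - p|} : ℝ) :=
  Pool.Agent.TH818.SA.t_final

end Pool.Agent.Results.MP_c2395a_nt.SimultaneousApproximation
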