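import Mathlib
import Pool.Agent.TH957.WM.Fin

set_option autoImplicit false

namespace Pool.Agent.Results.MP_c2395a_nt.WindowsMeasure

open Filter

/-- **The windows `[s + 2, 21 s / 4)` with a bounded exponent.**  For every odd `s ≥ 3` there is `q0` such that for
all `q ≥ q0` and all integers `P_j` some odd `j` with `s + 2 ≤ j < 21 s / 4` satisfies
`|q ζ(j) - P_j| ≥ q ^ (-min (64 s) 1038)`. -/
theorem result (s : ℕ) (hs : Odd s) (h3 : 3 ≤ s) :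
    ∃ q0 : ℕ, ∀ q : ℕ, q0 ≤ q → ∀ P : ℕ → ℤ,
      ∃ j : ℕ, Odd j ∧ s + 2 ≤ j ∧ 4 * j < 21 * s ∧
        (q : ℝ) ^ (-(min (64 * (s : ℝ)) 1038)) ≤
          |(q : ℝ) * (∑' n : ℕ, 1 / ((n : ℝ) + 1) ^ j) - (P j : ℝ)| :=
  eventually_atTop.1 (Pool.Agent.TH957.WM.zeta_windows s hs h3)

end Pool.Agent.Results.MP_c2395a_nt.WindowsMeasure
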